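import Pool.Agent.H261R3.LN.Stmts
import Pool.Agent.H275R3.LH.NulOne

set_option autoImplicit false

open scoped NNReal unitInterval

namespace Pool.Agent.H275R3.LN

open Pool.Agent.H261R3.LN
open Pool.Agent.H261R3.LH (Lip1 IsLNR clip clip_nonneg)
open Pool.Agent.H275R3.LH

/-- the real point of a point of the cube -/
def toR {q : ℕ} (y : Fin q → I) : Fin q → ℝ := fun i => y i

theorem dist_toR {q : ℕ} (y y' : Fin q → I) : dist (toR y) (toR y') ≤ dist y y' := by
  rw [dist_pi_le_iff dist_nonneg]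
  intro i
  exact dist_le_pi_dist y y' i

theorem continuous_toR {q : ℕ} : Continuous (toR (q := q)) := by
  unfold toR
  fun_prop

/-- projection to the interval -/
noncomputable def pr (x : ℝ) : I := Set.projIcc 0 1 zero_le_one x

theorem dist_pr (x y : ℝ) : dist (pr x) (pr y) ≤ |x - y| := by
  have h := (LipschitzWith.projIcc (a := (0 : ℝ)) (b := 1) zero_le_one).dist_le_mul x y
  rw [NNReal.coe_one, one_mul, Real.dist_eq] at h
  exact h

theorem pr_zero : pr 0 = 0 := Set.projIcc_left _

theorem pr_one : pr 1 = 1 := Set.projIcc_right _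

/-- projection to the cube -/
noncomputable def prN {q : ℕ} (u : Fin q → ℝ) : Fin q → I := fun i => pr (u i)

theorem dist_prN {q : ℕ} (u v : Fin q → ℝ) : dist (prN u) (prN v) ≤ dist u v := by
  rw [dist_pi_le_iff dist_nonneg]
  intro i
  refine (dist_pr _ _).trans ?_
  rw [← Real.dist_eq]
  exact dist_le_pi_dist u v i

theorem toR_prN {q : ℕ} (u : Fin q → ℝ) (h : InCube u) : toR (prN u) = u := by
  funext i
  show ((Set.projIcc (0 : ℝ) 1 zero_le_one (u i) : I) : ℝ) = u i
  rw [Set.projIcc_of_mem _ ⟨(h i).1, (h i).2⟩]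

theorem taskNulOneN : TaskNulOneN := by
  intro S _ _ hS q p hsub C₀ l hl₀ hlb
  obtain ⟨m, ι, r, K, ρ, hρ, hι, hr, hri⟩ := hS
  set C : ℝ := max C₀ 0 with hCdef
  have hC : 0 ≤ C := le_max_right _ _
  have hl : LipN C l := fun x y =>
    (hl₀ x y).trans (mul_le_mul_of_nonneg_right (le_max_left _ _) dist_nonneg)
  have hlc : Continuous l := by
    have : LipschitzWith C.toNNReal l := by
      apply LipschitzWith.of_dist_le_mul
      intro x y
      rw [Real.coe_toNNReal C hC]
      exact hl x y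
    exact this.continuous
  obtain ⟨Δ, hΔ⟩ := Metric.isBounded_iff.1 (isCompact_univ (X := S)).isBounded
  have hΔ' : ∀ a b : S, dist a b ≤ Δ := fun a b => hΔ (Set.mem_univ _) (Set.mem_univ _)
  have hΔ0 : 0 ≤ Δ := le_trans dist_nonneg (hΔ' p p)
  have hb_of : ∀ y : Fin q → I, y ∈ Cube.boundary (Fin q) → l (toR y) = p := by
    rintro y ⟨i, hi⟩
    apply hlb
    refine ⟨i, ?_⟩
    rcases hi with h | h
    · left; show ((y i : I) : ℝ) = 0; rw [h]; rfl
    · right; show ((y i : I) : ℝ) = 1; rw [h]; rfl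
  let γ : GenLoop (Fin q) S p :=
    ⟨⟨fun y => l (toR y), hlc.comp continuous_toR⟩, fun y hy => hb_of y hy⟩
  obtain ⟨F⟩ : GenLoop.Homotopic γ GenLoop.const := by
    have h := hsub.elim (Quotient.mk (GenLoop.Homotopic.setoid (Fin q) p) γ)
      (Quotient.mk (GenLoop.Homotopic.setoid (Fin q) p) GenLoop.const)
    exact Quotient.exact h
  -- the bilinear extension of the boundary values
  let b : (Fin q → I) × I → EuclideanSpace ℝ (Fin m) := fun x =>
    ι p + (1 - (x.2 : ℝ)) • (ι (l (toR x.1)) - ι p)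
  have hιc := hι.continuous
  have hb : Continuous b := by
    have h1 : Continuous fun x : (Fin q → I) × I => ι (l (toR x.1)) :=
      hιc.comp (hlc.comp (continuous_toR.comp continuous_fst))
    have h2 : Continuous fun x : (Fin q → I) × I => (x.2 : ℝ) :=
      continuous_subtype_val.comp continuous_snd
    exact continuous_const.add ((continuous_const.sub h2).smul (h1.sub continuous_const))
  let d : (Fin q → I) × I → EuclideanSpace ℝ (Fin m) := fun x => ι (F (x.2, x.1)) - b x
  have hd : Continuous d := by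
    have h1 : Continuous fun x : (Fin q → I) × I => ι (F (x.2, x.1)) :=
      hιc.comp (F.continuous.comp (continuous_snd.prodMk continuous_fst))
    exact h1.sub hb
  obtain ⟨n, E, hn, hE1, hE2, hE3⟩ := lip_approx_vec d hd ρ hρ
  let Q : (Fin q → I) × I → EuclideanSpace ℝ (Fin m) := fun x => b x + E x
  have hQ : ∀ x, Q x ∈ Metric.thickening ρ (Set.range ι) := by
    intro x
    rw [Metric.mem_thickening_iff]
    refine ⟨ι (F (x.2, x.1)), ⟨_, rfl⟩, ?_⟩
    rw [dist_eq_norm]
    have : Q x - ι (F (x.2, x.1)) = E x - d x := by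
      simp only [Q, d]
      abel
    rw [this]
    exact hE2 x
  have hιd : ∀ x y, ‖ι x - ι y‖ ≤ K * dist x y := by
    intro x y
    rw [← dist_eq_norm]
    exact hι.dist_le_mul x y
  have hK : (0 : ℝ) ≤ K := K.2
  -- `Q` is Lipschitz in each variable
  have hQ1 : ∀ (y y' : Fin q → I) (t : I), ‖Q (y, t) - Q (y', t)‖ ≤ (K * C + n) * dist y y' := by
    intro y y' t
    have h1 : Q (y, t) - Q (y', t) = (1 - (t : ℝ)) • (ι (l (toR y)) - ι (l (toR y'))) +
        (E (y, t) - E (y', t)) := by
      simp only [Q, b]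
      module
    rw [h1]
    refine (norm_add_le _ _).trans ?_
    have h2 : ‖(1 - (t : ℝ)) • (ι (l (toR y)) - ι (l (toR y')))‖ ≤ K * C * dist y y' := by
      rw [norm_smul, Real.norm_eq_abs, abs_of_nonneg (by linarith [t.2.2])]
      have h3 := hιd (l (toR y)) (l (toR y'))
      have h4 : dist (l (toR y)) (l (toR y')) ≤ C * dist y y' :=
        (hl _ _).trans (mul_le_mul_of_nonneg_left (dist_toR y y') hC)
      have h5 : (K : ℝ) * dist (l (toR y)) (l (toR y')) ≤ K * (C * dist y y') :=
        mul_le_mul_of_nonneg_left h4 hK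
      calc (1 - (t : ℝ)) * ‖ι (l (toR y)) - ι (l (toR y'))‖
          ≤ 1 * ‖ι (l (toR y)) - ι (l (toR y'))‖ :=
            mul_le_mul_of_nonneg_right (by linarith [t.2.1]) (norm_nonneg _)
        _ ≤ K * C * dist y y' := by linarith
    have h7 : ‖E (y, t) - E (y', t)‖ ≤ n * dist y y' := by
      refine (hE1 _ _).trans ?_
      rw [Prod.dist_eq]
      simp
    linarith
  have hQ2 : ∀ (y : Fin q → I) (t t' : I), ‖Q (y, t) - Q (y, t')‖ ≤ (K * Δ + n) * dist t t' := by
    intro y t t'
    have h1 : Q (y, t) - Q (y, t') = ((t' : ℝ) - t) • (ι (l (toR y)) - ι p) +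
        (E (y, t) - E (y, t')) := by
      simp only [Q, b]
      module
    rw [h1]
    refine (norm_add_le _ _).trans ?_
    have h2 : ‖((t' : ℝ) - t) • (ι (l (toR y)) - ι p)‖ ≤ K * Δ * dist t t' := by
      rw [norm_smul, Real.norm_eq_abs]
      have h3 := hιd (l (toR y)) p
      have h5 : (K : ℝ) * dist (l (toR y)) p ≤ K * Δ :=
        mul_le_mul_of_nonneg_left (hΔ' _ _) hK
      have h6 : dist t t' = |(t' : ℝ) - t| := by rw [Subtype.dist_eq, Real.dist_eq, abs_sub_comm]
      rw [h6, mul_comm]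
      exact mul_le_mul_of_nonneg_right (h3.trans h5) (abs_nonneg _)
    have h7 : ‖E (y, t) - E (y, t')‖ ≤ n * dist t t' := by
      refine (hE1 _ _).trans ?_
      rw [Prod.dist_eq]
      simp
    linarith
  have hrd : ∀ x y, dist (r (Q x)) (r (Q y)) ≤ K * ‖Q x - Q y‖ := by
    intro x y
    rw [← dist_eq_norm]
    exact hr.dist_le_mul _ (hQ x) _ (hQ y)
  have hKC : 0 ≤ (K : ℝ) * C + n := by positivity
  have hKΔ : 0 ≤ (K : ℝ) * Δ + n := by positivity
  refine ⟨K * (K * C + n) + K * (K * Δ + n), fun u t => r (Q (prN u, pr t)), ?_, ?_, ?_, ?_, ?_⟩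
  · intro t x y
    refine (hrd _ _).trans ?_
    have h1 : ‖Q (prN x, pr t) - Q (prN y, pr t)‖ ≤ (K * C + n) * dist x y :=
      (hQ1 _ _ _).trans (mul_le_mul_of_nonneg_left (dist_prN x y) hKC)
    have h2 : (K : ℝ) * ‖Q (prN x, pr t) - Q (prN y, pr t)‖ ≤ K * ((K * C + n) * dist x y) :=
      mul_le_mul_of_nonneg_left h1 hK
    have h3 : 0 ≤ (K : ℝ) * (K * Δ + n) * dist x y := by positivity
    linarith
  · intro u x y
    refine (hrd _ _).trans ?_
    have h1 : ‖Q (prN u, pr x) - Q (prN u, pr y)‖ ≤ (K * Δ + n) * |x - y| :=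
      (hQ2 _ _ _).trans (mul_le_mul_of_nonneg_left (dist_pr x y) hKΔ)
    have h2 : (K : ℝ) * ‖Q (prN u, pr x) - Q (prN u, pr y)‖ ≤ K * ((K * Δ + n) * |x - y|) :=
      mul_le_mul_of_nonneg_left h1 hK
    have h3 : 0 ≤ (K : ℝ) * (K * C + n) * |x - y| := by positivity
    linarith
  · intro u hu
    have hb0 : b (prN u, 0) = ι (l u) := by
      simp [b, toR_prN u hu]
    have hd0 : d (prN u, 0) = 0 := by
      simp only [d]
      rw [hb0, F.apply_zero]
      show ι (l (toR (prN u))) - ι (l u) = 0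
      rw [toR_prN u hu, sub_self]
    have : Q (prN u, pr 0) = ι (l u) := by
      simp only [Q]
      rw [pr_zero, hE3 _ hd0, hb0, add_zero]
    show r (Q (prN u, pr 0)) = l u
    rw [this, hri]
  · intro u
    have hb0 : b (prN u, 1) = ι p := by
      simp [b]
    have hd0 : d (prN u, 1) = 0 := by
      simp only [d]
      rw [hb0, F.apply_one]
      show ι p - ι p = 0
      rw [sub_self]
    have : Q (prN u, pr 1) = ι p := by
      simp only [Q]
      rw [pr_one, hE3 _ hd0, hb0, add_zero]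
    show r (Q (prN u, pr 1)) = p
    rw [this, hri]
  · intro u t hu
    have hbd : prN u ∈ Cube.boundary (Fin q) := by
      obtain ⟨i, hi⟩ := hu
      refine ⟨i, ?_⟩
      rcases hi with h | h
      · left; show pr (u i) = 0; rw [h, pr_zero]
      · right; show pr (u i) = 1; rw [h, pr_one]
    have hl0 : l (toR (prN u)) = p := hb_of _ hbd
    have hb0 : b (prN u, pr t) = ι p := by
      simp [b, hl0]
    have hd0 : d (prN u, pr t) = 0 := by
      simp only [d]
      rw [hb0, F.eq_fst _ hbd]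
      show ι (l (toR (prN u))) - ι p = 0
      rw [hl0, sub_self]
    have : Q (prN u, pr t) = ι p := by
      simp only [Q]
      rw [hE3 _ hd0, hb0, add_zero]
    show r (Q (prN u, pr t)) = p
    rw [this, hri]

end Pool.Agent.H275R3.LN
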